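import Mathlib
import Pool.Agent.H.MP_726576_nt.A

namespace Pool.Agent.Results.MP_726576_nt.PowTwo

open Pool.Agent.H.MP_726576_nt

lemma cnt : ∀ u < 49, u % 7 ≠ 0 → ∀ r < 7,
    ((Finset.range 21).filter (fun i => u * (2 ^ (i + 1) + 1) % 49 / 7 = r)).card = 3 := by
  decide +kernel

lemma nd : ∀ i < 21, (2 ^ (i + 1) + 1) % 49 % 7 ≠ 0 := by decide +kernel

open Classical in
theorem result : ∃ a : ℕ → ℂ, (∀ k, ‖a k‖ = 1) ∧ ∃ C : ℝ, ∀ d n : ℕ, 1 ≤ d → 1 ≤ n →
    ‖∑ k ∈ (Finset.Icc 1 n).filter (fun k => ∃ j : ℕ, 1 ≤ j ∧ k = 2 ^ j + 1), a (d * k)‖ ≤ C := by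
  have hz := Complex.isPrimitiveRoot_exp 7 (by norm_num)
  set z := Complex.exp (2 * Real.pi * Complex.I / (7 : ℕ)) with hzz
  have nz : ‖z‖ = 1 := hz.norm'_eq_one (by norm_num)
  apply bad (fun i => 2 ^ (i + 1) + 1) _ (by simp) _ _ (fun k => z ^ (ordCompl[7] k % 49 / 7))
    (by simp [nz]) 21 (by norm_num)
  · intro d hd t
    have p7 : Nat.Prime 7 := by norm_num
    have u0 : ordCompl[7] d % 49 % 7 ≠ 0 := by
      have := Nat.not_dvd_ordCompl p7 (show d ≠ 0 by omega)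
      omega
    have m : ∀ i, 2 ^ (21 * t + i + 1) + 1 ≡ 2 ^ (i + 1) + 1 [MOD 49] := by
      intro i
      apply Nat.ModEq.add_right
      rw [add_assoc, pow_add, pow_mul]
      have : (2 ^ 21) ^ t ≡ 1 ^ t [MOD 49] := Nat.ModEq.pow t (by decide)
      simpa using this.mul_right (2 ^ (i + 1))
    have e : ∀ i ∈ Finset.range 21,
        z ^ (ordCompl[7] (d * (2 ^ (21 * t + i + 1) + 1)) % 49 / 7)
        = z ^ ((ordCompl[7] d % 49) * (2 ^ (i + 1) + 1) % 49 / 7) := by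
      intro i hi
      have h1 := nd i (Finset.mem_range.1 hi)
      have h2 := m i
      rw [compl_mul 7 d _ p7 (by unfold Nat.ModEq at h2; omega)]
      congr 2
      exact (Nat.mod_modEq _ _).symm.mul h2
    rw [Finset.sum_congr rfl e]
    rw [← Finset.sum_fiberwise_of_maps_to (t := Finset.range 7)
      (g := fun i => (ordCompl[7] d % 49) * (2 ^ (i + 1) + 1) % 49 / 7)
      (fun i _ => by simp only [Finset.mem_range]; omega)]
    have : ∀ r ∈ Finset.range 7, ∑ i ∈ (Finset.range 21).filter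
        (fun i => (ordCompl[7] d % 49) * (2 ^ (i + 1) + 1) % 49 / 7 = r),
        z ^ ((ordCompl[7] d % 49) * (2 ^ (i + 1) + 1) % 49 / 7) = 3 * z ^ r := by
      intro r hr
      rw [Finset.sum_congr rfl (g := fun _ => z ^ r)
        (fun i hi => by rw [(Finset.mem_filter.1 hi).2])]
      rw [Finset.sum_const, cnt _ (Nat.mod_lt _ (by norm_num)) u0 r (Finset.mem_range.1 hr)]
      simp
    rw [Finset.sum_congr rfl this, ← Finset.mul_sum, hz.geom_sum_eq_zero (by norm_num), mul_zero]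
  · apply strictMono_nat_of_lt_succ
    intro i
    have : 0 < 2 ^ (i + 1) := by positivity
    rw [pow_succ 2 (i + 1)]; omega
  · intro k _
    constructor
    · rintro ⟨j, hj, rfl⟩
      exact ⟨j - 1, by rw [Nat.sub_add_cancel hj]⟩
    · rintro ⟨i, rfl⟩
      exact ⟨i + 1, by omega, rfl⟩

end Pool.Agent.Results.MP_726576_nt.PowTwo
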