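import Mathlib
import Pool.Agent.H.MP_726576_nt.A

namespace Pool.Agent.Results.MP_726576_nt.SqMinus

open Pool.Agent.H.MP_726576_nt

noncomputable def b (k : ℕ) : ℤ := ZMod.χ₈' ((ordCompl[2] k : ℕ) : ZMod 8)

lemma b_mul (x y : ℕ) : b (x * y) = b x * b y := by
  unfold b; rw [Nat.ordCompl_mul]; push_cast; rw [map_mul]

lemma b_odd (k : ℕ) (hk : k % 2 = 1) : b k = if k % 8 = 1 ∨ k % 8 = 3 then 1 else -1 := by
  unfold b
  rw [Nat.factorization_eq_zero_of_not_dvd (by omega)]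
  simp only [pow_zero, Nat.div_one]
  rw [ZMod.χ₈'_nat_eq_if_mod_eight, if_neg (by omega)]

lemma b_two (k : ℕ) : b (2 * k) = b k := by
  rw [b_mul]
  have : b 2 = 1 := by
    unfold b; rw [Nat.prime_two.factorization_self]; simp
  rw [this, one_mul]

lemma b_abs (k : ℕ) (hk : k ≠ 0) : b k = 1 ∨ b k = -1 := by
  have h := Nat.not_dvd_ordCompl Nat.prime_two hk
  unfold b
  rw [ZMod.χ₈'_nat_eq_if_mod_eight, if_neg (by omega)]
  split_ifs <;> simp

lemma blk (t : ℕ) : ∑ i ∈ Finset.range 16, b (16 * t + i + 1) * b (16 * t + i + 3) = 0 := by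
  have o : ∀ c : ℕ, c % 2 = 1 → b (16 * t + c) = if c % 8 = 1 ∨ c % 8 = 3 then 1 else -1 := by
    intro c hc; rw [b_odd _ (by omega)]
    have : (16 * t + c) % 8 = c % 8 := by omega
    rw [this]
  have e : ∀ c : ℕ, c % 2 = 1 → b (16 * t + 2 * c) = if c % 8 = 1 ∨ c % 8 = 3 then 1 else -1 := by
    intro c hc
    rw [show 16 * t + 2 * c = 2 * (8 * t + c) by ring, b_two, b_odd _ (by omega)]
    have : (8 * t + c) % 8 = c % 8 := by omega
    rw [this]
  have f : b (16 * t + 12) = b (16 * t + 4) := by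
    rw [show 16 * t + 12 = 2 * (2 * (4 * t + 3)) by ring,
      show 16 * t + 4 = 2 * (2 * (4 * t + 1)) by ring, b_two, b_two, b_two, b_two,
      b_odd _ (by omega), b_odd _ (by omega)]
    split_ifs <;> omega
  have o1 := o 1 rfl
  have o3 := o 3 rfl
  have o5 := o 5 rfl
  have o7 := o 7 rfl
  have o9 := o 9 rfl
  have o11 := o 11 rfl
  have o13 := o 13 rfl
  have o15 := o 15 rfl
  have o17 := o 17 rfl
  have e1 := e 1 rfl
  have e3 := e 3 rfl
  have e5 := e 5 rfl
  have e7 := e 7 rfl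
  have e9 := e 9 rfl
  norm_num at o1 o3 o5 o7 o9 o11 o13 o15 o17 e1 e3 e5 e7 e9
  simp only [Finset.sum_range_succ, Finset.sum_range_zero, add_assoc]
  norm_num
  rw [o1, o3, o5, o7, o9, o11, o13, o15, o17, e1, e3, e5, e7, e9, f]
  ring

open Classical in
theorem result : ∃ a : ℕ → ℂ, (∀ k, ‖a k‖ = 1) ∧ ∃ C : ℝ, ∀ d n : ℕ, 1 ≤ d → 1 ≤ n →
    ‖∑ k ∈ (Finset.Icc 1 n).filter (fun k => ∃ j : ℕ, 1 ≤ j ∧ k + 1 = j ^ 2), a (d * k)‖ ≤ C := by
  apply bad (fun i => (i + 1) * (i + 3)) _ (by simp) _ _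
    (fun k => if k = 0 then 1 else (b k : ℂ)) _ 16 (by norm_num)
  · intro d hd t
    have e : ∀ i ∈ Finset.range 16, (if d * ((16 * t + i + 1) * (16 * t + i + 3)) = 0 then (1 : ℂ)
        else (b (d * ((16 * t + i + 1) * (16 * t + i + 3))) : ℂ))
        = (b d : ℂ) * ((b (16 * t + i + 1) * b (16 * t + i + 3) : ℤ) : ℂ) := by
      intro i _
      rw [if_neg (by positivity), b_mul, b_mul]; push_cast; ring
    rw [Finset.sum_congr rfl e, ← Finset.mul_sum, ← Int.cast_sum, blk]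
    simp
  · apply strictMono_nat_of_lt_succ
    intro i; nlinarith
  · intro k hk
    constructor
    · rintro ⟨j, hj, h⟩
      have : 2 ≤ j := by
        by_contra hh
        have : j = 1 := by omega
        subst this; omega
      obtain ⟨i, rfl⟩ : ∃ i, j = i + 2 := ⟨j - 2, by omega⟩
      exact ⟨i, by nlinarith⟩
    · rintro ⟨i, rfl⟩
      exact ⟨i + 2, by omega, by ring⟩
  · intro k
    split_ifs with h
    · simp
    · rcases b_abs k h with e | e <;> simp [e]

end Pool.Agent.Results.MP_726576_nt.SqMinus
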