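import Mathlib
import Pool.Agent.H.MP_726576_nt.A

namespace Pool.Agent.Results.MP_726576_nt.SqPlus

open Pool.Agent.H.MP_726576_nt

open Classical in
theorem result : ∃ a : ℕ → ℂ, (∀ k, ‖a k‖ = 1) ∧ ∃ C : ℝ, ∀ d n : ℕ, 1 ≤ d → 1 ≤ n →
    ‖∑ k ∈ (Finset.Icc 1 n).filter (fun k => ∃ j : ℕ, 1 ≤ j ∧ k = j ^ 2 + 1), a (d * k)‖ ≤ C := by
  apply bad (fun i => (i + 1) ^ 2 + 1) _ (by simp) _ _ (fun k => (-1) ^ k.factorization 2)
    (by simp) 2 (by norm_num)
  · intro d hd t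
    have d0 : d ≠ 0 := by omega
    have e1 : (2 * t + 0 + 1) ^ 2 + 1 = 2 * (2 * (t ^ 2 + t) + 1) := by ring
    have e2 : (2 * t + 1 + 1) ^ 2 + 1 = 2 * (2 * (t + 1) ^ 2) + 1 := by ring
    have o : ∀ u : ℕ, (2 * u + 1).factorization 2 = 0 := fun u =>
      Nat.factorization_eq_zero_of_not_dvd (by omega)
    simp only [Finset.sum_range_succ, Finset.sum_range_zero, zero_add]
    rw [e1, e2, Nat.factorization_mul d0 (by omega), Nat.factorization_mul d0 (by omega),
      Nat.factorization_mul (by omega) (by omega)]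
    simp only [Finsupp.add_apply, o, Nat.prime_two.factorization_self]
    ring
  · apply strictMono_nat_of_lt_succ
    intro i
    have : (i + 1 + 1) ^ 2 = (i + 1) ^ 2 + 2 * i + 3 := by ring
    omega
  · intro k _
    constructor
    · rintro ⟨j, hj, rfl⟩
      exact ⟨j - 1, by rw [Nat.sub_add_cancel hj]⟩
    · rintro ⟨i, rfl⟩
      exact ⟨i + 1, by omega, rfl⟩

end Pool.Agent.Results.MP_726576_nt.SqPlus
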